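import Pool.Agent.Q173.AB.Core

/-!
# Abundance for manifolds which are almost of general type
-/

set_option autoImplicit false

open Pool.Agent.Q173.AB

namespace Pool.Agent.Results.MP_c2a5fc_ag.AlmostBig

universe u v

theorem result {V : Type u} (G : Data V) (hG : G.IsKnown) {V' : Type v} (G' : Data V')
    (hG' : G'.IsPsef) :
    (∀ (N D : ℕ) (f : ℕ → ℕ), (∀ X, G.Almost D f N X →
        G.KappaGt X (G.nu X - (G.dim X - G.nu X : ℕ) / ((N - 1 : ℕ) : ℝ))) →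
      ∀ X, G.dim X ≤ N → G.Good X) ∧
    ((∀ X, G.Good X) ↔ ∀ ε : ℝ, 0 < ε → ∀ r : ℕ, ∃ (D : ℕ) (f : ℕ → ℕ), ∀ X, G.Almost D f r X →
      G.KappaGe X (G.nu X - ε * (G.dim X - G.nu X : ℕ))) ∧
    ((∀ X, G'.Good X) ↔ ∃ c : ℝ, 0 < c ∧ ∀ ε : ℝ, 0 < ε → ∃ D : ℕ, ∀ X, D ≤ G'.dim X →
      G'.KappaGe X (c * G'.nu X - ε * G'.dim X)) := by
  refine ⟨fun N D f h X hX => hG.level N D f h X hX, ⟨fun h ε hε r => ?_, fun h X => ?_⟩,
    ⟨fun h => ?_, fun ⟨c, hc, h⟩ X => hG'.good hc h X⟩⟩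
  · refine ⟨0, fun _ => 0, fun X _ => (h X).kappaGe ?_⟩
    have : (0 : ℝ) ≤ (G.dim X - G.nu X : ℕ) := Nat.cast_nonneg _
    nlinarith
  · obtain ⟨D, f, hD⟩ := h (1 / (2 * (G.dim X + 1 : ℕ))) (by positivity) (G.dim X + 2)
    refine hG.level (G.dim X + 2) (D + 1) f (fun Y hY => ?_) X (by omega)
    obtain ⟨h1, h2, h3⟩ := hY
    refine (hD Y ⟨by omega, h2, h3⟩).gt ?_
    have h4 : (1 : ℝ) ≤ (G.dim Y - G.nu Y : ℕ) := by exact_mod_cast (by omega)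
    have h5 : (G.dim X + 2 - 1 : ℕ) = G.dim X + 1 := by omega
    rw [h5]
    have h6 : (0 : ℝ) < (G.dim X + 1 : ℕ) := by positivity
    have h7 : 1 / (2 * ((G.dim X + 1 : ℕ) : ℝ)) * (G.dim Y - G.nu Y : ℕ) <
        (G.dim Y - G.nu Y : ℕ) / ((G.dim X + 1 : ℕ) : ℝ) := by
      rw [div_mul_eq_mul_div, one_mul, div_lt_div_iff₀ (by positivity) h6]
      nlinarith
    linarith
  · refine ⟨1, one_pos, fun ε hε => ⟨0, fun X _ => (h X).kappaGe ?_⟩⟩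
    have : (0 : ℝ) ≤ G'.dim X := Nat.cast_nonneg _
    nlinarith

end Pool.Agent.Results.MP_c2a5fc_ag.AlmostBig
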