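import Pool.Agent.Q57.CF.Top

/-!
# Nef canonical divisors are base point free on all models of quotients of products of cyclic hypersurfaces

Let `F i` be a form of degree `d i` in `n i + 1` variables whose zero set in the projective
`n i`-space is a smooth hypersurface, and let `H i` be the cyclic hypersurface `w ^ (d i) = F i` in
the projective `(n i + 1)`-space. Let `K` be the function field of a quotient
`Y = (H 1 × ... × H r) / G`, where `G` is any group of diagonal automorphisms
`w i ↦ ζ i * w i`, `ζ i ^ (d i) = 1`. Equivalently, `K` is generated by the affine coordinates
`x i j / x i 0` of the product of the projective `n i`-spaces and by roots `z j`,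
`z j ^ (m j) = ∏ i, (F i (x i) / x i 0 ^ (d i)) ^ (a j i)`, where `m j` divides `a j i * d i`: the
abelian covers of the product of the projective spaces which are branched along the hypersurfaces
`F i = 0` of the factors. There is no condition on the dimensions, the degrees and the group; the
quotients have quotient singularities, in general not canonical ones.

**The models.** Let `X` be ANY compact complex manifold which is bimeromorphic to `Y`, or, more
generally, any compact normal complex space with canonical singularities which is bimeromorphic to
`Y`. It is given by its discrepancies: `k P` is the discrepancy over `X` of the prime divisor `P` over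
`X` (of the divisorial place `P` of `K`), that is, the coefficient of `P` in `K_X' - π^* K_X` if `P` is
a prime divisor on a manifold `X'`, `π : X' → X` bimeromorphic. For a manifold `X` the numbers `k P`
are integers `≥ 0`. The function `k` has the two properties in `IsDiscrepancy`: `k P ≥ 0` (the
singularities of `X` are canonical), and every pluricanonical form `ω` which is regular on the smooth
models of `K` has order at least `m k P` along `P`, since `ω` is a section of `m K_X`. Nothing else is
used about `X`: it may be any model whatsoever, and is not related to the toroidal structure of `Y`.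

**The theorem.** Let `ρ K_X` be a Cartier divisor, or, more generally, let `ρ k P` be integral for all
`P` (for a manifold: `ρ = 1`). Then `K_X` is nef if and only if the linear system `|ρ K_X|` has no base
points: for every prime divisor `P` over `X` there is a section of `ρ K_X` which does not vanish at `P`
(take the exceptional divisor of the blowing up of a point of `X`).

So for all projective (or compact Kähler) manifolds `X` with nef canonical bundle `K_X` in these
bimeromorphic classes, `K_X` itself is generated by its global sections; in particular `K_X` is
semiample and `κ(X) = ν(X)`, the geometric genus of `X` is positive, and `K_X` is trivial if it is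
numerically trivial. For minimal models with canonical singularities the least multiple `ρ K_X` which
is Cartier is base point free. In general effective results of this kind are known only if `K_X` is
nef and big (Kollár), with large multiples depending on the dimension, and the smallest multiple
depends on more than the Cartier index (Enriques and bielliptic surfaces, Godeaux surfaces).
The Kodaira and numerical dimensions of these varieties are computed in
`MP_c2a5fc_ag.HypersurfaceQuotients`. For the toroidal models of `Y` and toroidal divisors see
`MP_5ee2d0_ag.NefCartierIsFree`; for more general covers, with larger multiples of `K_X`, see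
`MP_5ff3c6_ag.IndexAndFreeness`.

The proof: the asymptotic orders of the pluricanonical forms along `P` are
`a P + min ⟨v, q b⟩`, where `v` is the vector of the multiplicities of the hypersurfaces along `P`, `a P`
depends only on the log discrepancy of `P`, and the `q b` are finitely many points with rational
coordinates. Since `K_X` is nef, this is `k P`. As `ρ k P` is integral for all `P`, the vertices of the
polyhedron generated by the `q b` are, after multiplication by `ρ`, points of the dual lattice of the
lattice of the admissible vectors, and these points give sections of `ρ K_X`.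
-/

set_option autoImplicit false

open FF MvPolynomial Pool.Agent.W602.GT

namespace Pool.Agent.Results.MP_c2a5fc_ag.CanonicalSystemIsFree

/-- The form `F` has no singular zeros: its partial derivatives have no common zero but `0`. -/
def Smooth {n : ℕ} (F : MvPolynomial (Fin (n + 1)) ℂ) : Prop :=
  ∀ x : Fin (n + 1) → ℂ, x ≠ 0 → ∃ l, eval x (pderiv l F) ≠ 0

/-- The affine coordinates of the product of the projective spaces. -/
noncomputable def affine {r : ℕ} {n : Fin r → ℕ} {K : Type} [Field K]
    (x : ∀ i, Fin (n i + 1) → K) (b : (i : Fin r) × Fin (n i)) : K :=
  x b.1 b.2.succ / x b.1 0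

section sections

variable {K : Type} [Field K] [Algebra ℂ K] (N : ℕ) (k : Place ℂ K → ℚ)

/-- `ω` is a section of `m K_X + j A`, for the model `X` of dimension `N` with the discrepancies
`k P`: a rational section of the `m`-th power of the canonical bundle (`IsPluri`: a function of `N`
rational vector fields which is multiplied by `det B ^ m` under a linear substitution `B`) whose order
on the vector fields which are regular at `P` is at least `m * k P` plus `j` times the order of one of
the functions in `S`, for all prime divisors `P` over `X` (all divisorial places `P` of `K`). Here `A`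
is the divisor which is generated by the finite set `S` of functions; `A = 0` if `S = {1}`. -/
def IsSection (S : Finset K) (m j : ℕ) (ω : (Fin N → Derivation ℂ K K) → K) : Prop :=
  IsPluri m ω ∧ ∀ P : Place ℂ K, Divisorial N P → ∀ D : Fin N → Derivation ℂ K K,
    (∀ c, DerReg P (D c)) → ω D = 0 ∨ ∃ s ∈ S, s ≠ 0 ∧ (j : ℚ) * P.ord s + m * k P ≤ P.ord (ω D)

/-- The properties of the discrepancies `k P` of a compact normal complex space `X` with canonical
singularities whose field of meromorphic functions is `K`: `k P ≥ 0`, and the pluricanonical forms
which are regular at all prime divisors are sections of multiples of `K_X`, so that their orders are at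
least `m * k P`. -/
structure IsDiscrepancy : Prop where
  nonneg : ∀ P, Divisorial N P → 0 ≤ k P
  regular : ∀ m ω, IsSection N (fun _ => 0) {1} m 0 ω → IsSection N k {1} m 0 ω

/-- `K_X` is nef: there is a divisor `A` such that for all `M ≥ 1` a positive multiple
`j (M K_X + A)` has no base points: for every prime divisor `P` it has a section which does not vanish
at `P`. -/
def Nef : Prop :=
  ∃ S : Finset K, (∃ s ∈ S, s ≠ 0) ∧ ∀ M : ℕ, 1 ≤ M → ∃ j : ℕ, 1 ≤ j ∧
    ∀ P : Place ℂ K, Divisorial N P → ∃ η, IsSection N k S (j * M) j η ∧
      ∃ D, (∀ c, DerReg P (D c)) ∧ η D ≠ 0 ∧
        ∀ s ∈ S, s ≠ 0 → (P.ord (η D) : ℚ) ≤ j * P.ord s + (j * M : ℕ) * k P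

/-- The linear system `|ρ K_X|` has no base points: for every prime divisor `P` over `X` there is a
section of `ρ K_X` whose order on some vector fields which are regular at `P` is `ρ * k P`. -/
def BasePointFree (ρ : ℕ) : Prop :=
  ∀ P : Place ℂ K, Divisorial N P → ∃ ω, IsSection N k {1} ρ 0 ω ∧
    ∃ D, (∀ c, DerReg P (D c)) ∧ ω D ≠ 0 ∧ (P.ord (ω D) : ℚ) ≤ ρ * k P

end sections

/-- **The main theorem.** Let `K` be the function field of an abelian cover of the product of the
projective `n i`-spaces which is branched along smooth hypersurfaces `F i = 0` of the factors (that
is, of a quotient of the product of the cyclic hypersurfaces `w ^ (d i) = F i` by a group of diagonal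
automorphisms), and let `X` be any compact complex manifold, or normal space with canonical
singularities, with this function field. If `ρ k P` is integral for all `P` (for instance if `ρ K_X`
is Cartier; for manifolds `ρ = 1`), then `K_X` is nef if and only if `|ρ K_X|` is base point free. -/
theorem result (r N R : ℕ) (n d : Fin r → ℕ) (hr : 1 ≤ r) (hn : ∀ i, 1 ≤ n i)
    (hd : ∀ i, 1 ≤ d i) (hN : N = ∑ i, n i)
    (F : ∀ i, MvPolynomial (Fin (n i + 1)) ℂ) (hF : ∀ i, (F i).IsHomogeneous (d i))
    (hs : ∀ i, Smooth (F i)) (m : Fin R → ℕ) (hm : ∀ j, 1 ≤ m j) (a : Fin R → Fin r → ℕ)
    (hdiv : ∀ j i, m j ∣ a j i * d i)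
    (K : Type) [Field K] [Algebra ℂ K] (x : ∀ i, Fin (n i + 1) → K) (hx0 : ∀ i, x i 0 ≠ 0)
    (hbas : IsTranscendenceBasis ℂ (affine x)) (z : Fin R → K)
    (hz : ∀ j, z j ^ m j = ∏ i, (aeval (x i) (F i) / x i 0 ^ d i) ^ a j i)
    (hgen : IntermediateField.adjoin ℂ (Set.range (affine x) ∪ Set.range z) = ⊤)
    (k : Place ℂ K → ℚ) (hk : IsDiscrepancy N k) (ρ : ℕ) (hρ : 1 ≤ ρ)
    (hint : ∀ P : Place ℂ K, Divisorial N P → ∃ z : ℤ, (ρ : ℚ) * k P = z) :
    Nef N k ↔ BasePointFree N k ρ := by
  have h := Pool.Agent.Q57.CF.top_can (N := N) hr hn hN hd hF hs hx0 hbas hm hdiv hz hgen
    hk.nonneg (fun m ω h1 h2 P hP D hD => by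
      have h3 := (hk.regular m ω ⟨h1, fun P' hP' D' hD' => (h2 P' hP' D' hD').imp id fun h4 =>
        ⟨1, by simp, one_ne_zero, by
          rw [P'.ord_one]
          have h5 : ((0 : ℤ) : ℚ) ≤ (P'.ord (ω D') : ℚ) := by exact_mod_cast h4
          simpa using h5⟩⟩).2 P hP D hD
      refine h3.imp id ?_
      rintro ⟨s, hs, -, h4⟩
      rw [Finset.mem_singleton.1 hs, P.ord_one] at h4
      simpa using h4) hρ hint
  unfold Pool.Agent.Q57.GM.BNef Pool.Agent.Q57.TP.BSec at h
  unfold Nef BasePointFree IsSection
  simp only [mul_neg, sub_neg_eq_add, neg_neg] at h
  simp only [Nat.cast_mul] at h ⊢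
  exact h

end Pool.Agent.Results.MP_c2a5fc_ag.CanonicalSystemIsFree
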