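import Pool.Agent.Q36.GP.Cp

/-!
# Abundance for varieties dominated by products of arbitrary varieties

Let `W 1, ..., W s` be projective manifolds of dimensions `d i`, each of them one of the following:

* a manifold whose canonical map has an image of dimension at least `a i ≥ 0`; then let `c i = 0`, or
  more generally let the canonical forms separate `c i + 1` points and tangent vectors in an open set,
* a curve of gonality at least `c i + 2`, and `a i = 1`, or `a i = 0` if it is elliptic.

Let `Z` be a variety with a generically finite rational map to `W 1 × ... × W s`, and `Z ⇢ X` any
dominant rational map of finite degree to a projective manifold `X`. The map need not be a quotient by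
a group, and nothing is assumed about `X`. For a general point `x` of `X` let `r_i` be the number of
different `i`-th coordinates of the points of `Z` over `x`, and for a set `Q` of indices let `r(Q)` be
the number of the points over `x` which have the same `j`-th coordinates as a given one of them for
all `j` outside `Q`. Assume that

* `2 r_i ≤ c i + 1` for all `i` in some set `B` (which may be empty), and
* for all `Q` disjoint from `B`: `r(Q) = 1`, or `2 r(Q) - 1 ≤ ∑ j ∈ Q, c j`.

The theorem.

(1) The canonical map of `X` has an image of dimension at least `∑ a i`.

(2) Let `Z` be the product of the `W i`. If `ν(W i) ≤ b i` for all `i` then `ν(X) ≤ ∑ b i`, and if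
`ν(W i) = -∞` for some `i` then `ν(X) = -∞` (for this the other assumptions are not used).

So abundance (in the form that `ν` is the dimension of the canonical image) passes from the factors to
`X`: if
`ν(W i) = a i` for all `i` then `κ(X) = ν(X) = ∑ a i`, and this number is already the dimension of the
canonical image of `X`. If `K_X` is nef it is semiample, by Kawamata's theorem. The varieties `W` with
this property include the abelian varieties and the manifolds with trivial canonical bundle (`a = 0`),
the varieties of general type with generically finite canonical map (`a = dim W`), elliptic surfaces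
with `p_g ≥ 2`, and products of all these.

Example. Let `W 1` be a manifold with trivial canonical bundle, and let the other factors be curves
`C j`. If the points over `x` have different coordinates in each curve `C j`, `j ∈ S`, `S` is not empty
and `2 r - 1 ≤ ∑ j ∈ S, (gon (C j) - 2)`, `r` the degree, then the assumptions hold with `B` empty. The
degree may grow linearly with the number of curves.

Proof: exterior products of canonical forms of the factors are canonical forms of `Z`, and their
traces are canonical forms of `X`. If a vector field of `X` kills all their quotients, there is a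
relation between the values and the derivatives of the forms on the factors at the points of a
general fibre. Hall's theorem on the marriage problem and the separation properties of the canonical
forms of the factors are used to isolate one point of the fibre and one factor in this relation: in
that point the vector field kills the quotients of the canonical forms of the factor. The upper bound:
with the extensions of the places of `V` and of `W` to a product `V × W` it is shown that the
coefficients of a section on `V × W` (with respect to functions on one factor) are sections on the
other factor.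
-/

set_option autoImplicit false
set_option linter.overlappingInstances false

open FF IntermediateField Pool.Agent.W619.PQ Pool.Agent.W619.TW

namespace Pool.Agent.Results.MP_c2a5fc_ag.DominatedByProducts

/-- Every nonconstant function on the curve with function field `F` has degree at least `γ`. -/
def GonalityGe (k F : Type) [Field k] [Field F] [Algebra k F] (γ : ℕ) : Prop :=
  ∀ b : F, Transcendental k b → γ ≤ Module.finrank k⟮b⟯ F

/-- The canonical map of the projective manifolds of dimension `n` with function field `K` has an
image of dimension at least `h`: there are `h + 1` canonical forms whose ratios to the first one are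
algebraically independent. For `h = 0`: `p_g > 0`. -/
def CanonicalImageGe (k K : Type) [Field k] [Field K] [Algebra k K] (n h : ℕ) : Prop :=
  ∃ ω : Fin (h + 1) → (Fin n → Derivation k K K) → K,
    (∀ l, IsSec k K n (fun _ => False) {1} 1 0 (ω l)) ∧
    ∃ D, (∀ l, ω l D ≠ 0) ∧ AlgebraicIndependent k (fun l : Fin h => ω l.succ D / ω 0 D)

/-- The coefficients of the canonical forms of the projective manifold of dimension `d` with function
field `K`, with respect to the rational vector fields `E`. -/
def canonicalForms (k : Type) {K : Type} [Field k] [Field K] [Algebra k K] (d : ℕ)
    (E : Fin d → Derivation k K K) : Set K :=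
  {f | ∃ η : (Fin d → Derivation k K K) → K, IsPluriForm k K d 1 η ∧
    (∀ u : Place k K, IsDivisorial u d → RegularAt u d η) ∧ η E = f}

/-- The canonical forms of the manifold with function field `K` separate `m` points and tangent
vectors in an open set: let `φ i` be different generic points, with coordinates in a field `Ω`, with
multiplicities `1` or `2` of sum at most `m`, and `θ i` tangent vectors at the points of multiplicity
`2`; then the values at the `φ i` are linearly independent of each other and of the derivatives in
the directions `θ i ≠ 0`. (For the coefficients with respect to a frame `E`; this does not depend on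
the choice of the frame.) -/
def Separates (k K : Type) [Field k] [Field K] [Algebra k K] (d m : ℕ) : Prop :=
  ∀ (y : Fin d → K) (E : Fin d → Derivation k K K), IsTranscendenceBasis k y →
    (∀ i j, E i (y j) = if i = j then 1 else 0) →
    ∀ (Ω : Type) [Field Ω] [Algebra k Ω] (ι : Type) [Fintype ι] (φ : ι → (K →ₐ[k] Ω)) (μ : ι → ℕ)
      (c : ι → Ω) (θ : ι → (K →ₗ[k] Ω)), Function.Injective φ → (∀ i, μ i = 1 ∨ μ i = 2) →
      ∑ i, μ i ≤ m → (∀ i, ∀ a b, θ i (a * b) = φ i a * θ i b + φ i b * θ i a) →
      (∀ i, μ i = 1 → θ i = 0) →
      (∀ f ∈ canonicalForms k d E, ∑ i, (c i * φ i f + θ i f) = 0) → ∀ i, c i = 0 ∧ θ i = 0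

section

variable {k : Type} (L : Type) {M : Type} [Field k] [Field L] [Field M] [Algebra k L] [Algebra k M]
  [Algebra L M]

/-- The number of different coordinates in the factor with function field `F` on a general fibre of
`Z ⇢ X`: the degree over `X` of the image of `Z` in the product of `X` and the factor. -/
noncomputable def coordinates (F : IntermediateField k M) : ℕ :=
  Module.finrank L (IntermediateField.adjoin L (F : Set M))

/-- The number of the points of a general fibre of `Z ⇢ X` with the same coordinates outside `Q` as a
given one: the degree of `Z` over its image in the product of `X` and the factors `j ∉ Q`. -/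
noncomputable def agreeing {s : ℕ} (W : Fin s → IntermediateField k M) (Q : Finset (Fin s)) : ℕ :=
  Module.finrank (IntermediateField.adjoin L {z : M | ∃ j, j ∉ Q ∧ z ∈ W j}) M

end

/-- **Abundance for varieties dominated by products.** Let `W i` (`i < s`) be the function fields of
projective manifolds of dimensions `d i` over an algebraically closed field of characteristic zero,
each of them with a canonical image of dimension at least `a i`, where `c i = 0` or the canonical forms
separate `c i + 1` points and tangent vectors, or a curve of gonality at least `c i + 2` and `a i = 1`,
or elliptic and `a i = 0`. Let `M`, of transcendence degree `∑ d i`, be algebraic over the compositum of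
the `W i` (the function field of `Z`), and `L` the function field of a projective manifold `X` with a
dominant rational map of finite degree from `Z` to `X`. Let `B` be a set of indices such that twice the
number of the `i`-th coordinates on a general fibre is at most `c i + 1` for `i ∈ B`, and assume that
for every set `Q` of indices disjoint from `B` the number `r(Q)` of the points of a general fibre with
the same coordinates outside `Q` as a given one satisfies `r(Q) = 1` or `2 r(Q) - 1 ≤ ∑ j ∈ Q, c j`.

(1) The dimension of the canonical image of `X` is at least `∑ a i`.

(2) Let `Z` be the product of the `W i`, that is, `M` is generated by the `W i`. If `ν(W i) ≤ b i` for all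
`i` then `ν(X) ≤ ∑ b i`. If `ν(W i) = -∞` for some `i` then `ν(X) = -∞`. -/
theorem result {k L M : Type} [Field k] [CharZero k] [IsAlgClosed k] [Field L] [Field M]
    [Algebra k L] [Algebra k M] [Algebra L M] [IsScalarTower k L M] [FiniteDimensional L M]
    [Algebra.EssFiniteType k L]
    (s : ℕ) (d a c : Fin s → ℕ) (W : Fin s → IntermediateField k M)
    (hess : ∀ i, Algebra.EssFiniteType k (W i)) (hd : ∀ i, Algebra.trdeg k (W i) = d i)
    (hM : Algebra.trdeg k M = (∑ i, d i : ℕ)) (halg : Algebra.IsAlgebraic ↥(⨆ i, W i) M)
    (hW : ∀ i, (CanonicalImageGe k (W i) (d i) (a i) ∧
        (c i = 0 ∨ Separates k (W i) (d i) (c i + 1))) ∨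
      (IsFF k (W i) ∧ GonalityGe k (W i) (c i + 2) ∧
        ((IsElliptic (W i) ∧ a i = 0) ∨ (¬ IsElliptic (W i) ∧ a i = 1))))
    (B : Finset (Fin s)) (hB : ∀ i ∈ B, 2 * coordinates L (W i) ≤ c i + 1)
    (hQ : ∀ Q : Finset (Fin s), Disjoint Q B →
      agreeing L W Q = 1 ∨ 2 * agreeing L W Q ≤ 1 + ∑ j ∈ Q, c j) :
    CanonicalImageGe k L (∑ i, d i) (∑ i, a i) ∧
    (⨆ i, W i = ⊤ →
      (∀ b : Fin s → ℕ, (∀ i, NumLe k (W i) (d i) (fun _ => False) (b i)) →
        NumLe k L (∑ i, d i) (fun _ => False) (∑ i, b i)) ∧
      ((∃ i, NumNeg k (W i) (d i) (fun _ => False)) →
        NumNeg k L (∑ i, d i) (fun _ => False))) := by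
  classical
  have hd1 : ∀ i, IsFF k (W i) → d i = 1 := by
    intro i hi
    have h4 := IsFF.trdeg (k := k) (K := W i)
    rw [hd i] at h4
    exact_mod_cast h4
  have hg : ∀ i, Q36.GV.CanSepJ k (W i) (d i) (c i + 1) ∧
      Q36.PT.ImageGe k (W i) (d i) (fun _ => False) 1 (a i) := by
    intro i
    rcases hW i with ⟨h1, h3⟩ | ⟨h1, h2, h3⟩
    · refine ⟨?_, h1⟩
      rcases h3 with h3 | h3
      · rw [h3]
        obtain ⟨ω, h4, D, h5, -⟩ := h1
        exact Q36.GV.sep_one ⟨ω 0, (Q36.GV.reg_of_sec (h4 0)).1, (Q36.GV.reg_of_sec (h4 0)).2, D, h5 0⟩
      · exact h3
    · have h4 := Q36.GP.gfac_curve (W i) (hd i) (c := c i) h2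
      refine ⟨h4.sep, ?_⟩
      rcases h3 with ⟨h5, h6⟩ | ⟨h5, h6⟩
      · have h7 := h4.img
        rw [if_pos h5] at h7
        rw [h6]
        exact h7
      · have h7 := h4.img
        rw [if_neg h5] at h7
        rw [h6]
        exact h7
  refine ⟨?_, fun hsup => ⟨fun b hb => Q36.GP.num_dom W hd hM hsup hb,
    fun h => Q36.GP.neg_dom W hd hM hsup h⟩⟩
  refine Q36.GV.imageV (L := L) W hM halg hd (m := fun i => c i + 1)
    (fun i => Nat.le_add_left 1 _) (fun i => (hg i).1) (fun i => (hg i).2) B hB fun Q hQB => ?_
  have h3 : ∑ j ∈ Q, (c j + 1 - 1) = ∑ j ∈ Q, c j :=
    Finset.sum_congr rfl fun j _ => Nat.add_sub_cancel _ _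
  rw [h3]
  exact hQ Q hQB

end Pool.Agent.Results.MP_c2a5fc_ag.DominatedByProducts
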